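import Pool.Agent.helper34.AC.Spec3

set_option autoImplicit false

open Filter Topology

namespace Pool.Agent.helper34.AC

open Polynomial in
theorem CUM_thL (p : ℝ) (Q : Polynomial ℝ) :
    th ((C (1 - p) + C p * X) * Q) = (C (1 - p) + C p * X) * th Q + C p * X * Q := by
  unfold th
  rw [derivative_mul, derivative_add, derivative_C, derivative_C_mul, derivative_X]
  ring

open Polynomial in
theorem CUM_thX (p : ℝ) (Q : Polynomial ℝ) :
    th (C p * X * Q) = C p * X * Q + C p * X * th Q := by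
  unfold th
  rw [derivative_mul, derivative_C_mul, derivative_X]
  ring

theorem CUM_thA (P Q : Polynomial ℝ) : th (P + Q) = th P + th Q := by
  unfold th
  rw [Polynomial.derivative_add]
  ring

open Polynomial in
theorem CUM_step (p : ℝ) (Q : Polynomial ℝ) :
    (((C (1 - p) + C p * X) * Q).eval 1 = Q.eval 1) ∧
    ((th ((C (1 - p) + C p * X) * Q)).eval 1 = (th Q).eval 1 + p * Q.eval 1) ∧
    ((th (th ((C (1 - p) + C p * X) * Q))).eval 1 =
      (th (th Q)).eval 1 + 2 * p * (th Q).eval 1 + p * Q.eval 1) ∧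
    ((th (th (th ((C (1 - p) + C p * X) * Q)))).eval 1 =
      (th (th (th Q))).eval 1 + 3 * p * (th (th Q)).eval 1 + 3 * p * (th Q).eval 1 + p * Q.eval 1) ∧
    ((th (th (th (th ((C (1 - p) + C p * X) * Q))))).eval 1 =
      (th (th (th (th Q)))).eval 1 + 4 * p * (th (th (th Q))).eval 1 + 6 * p * (th (th Q)).eval 1 +
        4 * p * (th Q).eval 1 + p * Q.eval 1) := by
  refine ⟨?_, ?_, ?_, ?_, ?_⟩ <;>
  · simp only [CUM_thL, CUM_thX, CUM_thA, eval_add, eval_mul, eval_C, eval_X]
    ring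

theorem CUM : CUM_stmt := by
  intro ι _ s p Q k1 k2 k3 k4 hQ h1 h2 h3 h4
  subst hQ h1 h2 h3 h4
  induction s using Finset.induction_on with
  | empty =>
    have ht1 : th (1 : Polynomial ℝ) = 0 := by
      unfold th
      simp
    have ht0 : th (0 : Polynomial ℝ) = 0 := by
      unfold th
      simp
    simp [ht1, ht0]
  | insert a s ha ih =>
    obtain ⟨e0, e1, e2, e3, e4⟩ := ih
    rw [Finset.prod_insert ha]
    obtain ⟨f0, f1, f2, f3, f4⟩ := CUM_step (p a)
      (∏ i ∈ s, (Polynomial.C (1 - p i) + Polynomial.C (p i) * Polynomial.X))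
    rw [f0, f1, f2, f3, f4, e0, e1, e2, e3, e4]
    rw [Finset.sum_insert ha, Finset.sum_insert ha, Finset.sum_insert ha, Finset.sum_insert ha]
    refine ⟨rfl, ?_, ?_, ?_, ?_⟩ <;> ring

end Pool.Agent.helper34.AC
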